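import Pool.Agent.H23.DM.TargetsG
import Pool.Agent.H25.HK.Targets

/-! Board dmh_modules, module LN: the lattices. -/

set_option autoImplicit false

open NumberField NumberField.InfinitePlace
open scoped nonZeroDivisors

namespace Pool.Agent.H54.DM.LN

open Pool.Agent.H25.HK Pool.Agent.H23.LB Pool.Agent.H23.LC Pool.Agent.H23.DM
open Pool.Agent.H31.SW (DD dK)

variable (K : Type) [Field K] [NumberField K]

private theorem two_eq : (((Ideal.span {(2 : 𝓞 K)} : Ideal (𝓞 K)) : FI K)) =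
    FractionalIdeal.spanSingleton (𝓞 K)⁰ (2 : K) := by
  rw [FractionalIdeal.coeIdeal_span_singleton]
  congr 1

private theorem two_ne : (((Ideal.span {(2 : 𝓞 K)} : Ideal (𝓞 K)) : FI K)) ≠ 0 := by
  rw [two_eq, Ne, FractionalIdeal.spanSingleton_eq_zero_iff]
  exact two_ne_zero

private theorem norm_two : (FractionalIdeal.absNorm
    ((Ideal.span {(2 : 𝓞 K)} : Ideal (𝓞 K)) : FI K) : ℝ) = 2 ^ Module.finrank ℚ K := by
  rw [FractionalIdeal.coeIdeal_absNorm, Ideal.absNorm_span_singleton]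
  have h : (Algebra.norm ℤ (2 : 𝓞 K)) = 2 ^ Module.finrank ℤ (𝓞 K) := by
    have h1 := Algebra.norm_algebraMap (R := ℤ) (S := 𝓞 K) (2 : ℤ)
    simpa using h1
  rw [h, RingOfIntegers.rank]
  push_cast [Int.natAbs_pow]
  simp

variable {K}

private theorem norm_coe (j : Ideal (𝓞 K)) :
    (FractionalIdeal.absNorm ((j : Ideal (𝓞 K)) : FI K) : ℝ) = Nf K j := by
  rw [FractionalIdeal.coeIdeal_absNorm]
  unfold Nf
  norm_cast

private theorem coe_ne {j : Ideal (𝓞 K)} (h : j ≠ ⊥) : ((j : Ideal (𝓞 K)) : FI K) ≠ 0 :=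
  FractionalIdeal.coeIdeal_ne_zero.mpr h

private theorem Nf_pos {j : Ideal (𝓞 K)} (h : j ≠ ⊥) : 0 < Nf K j := by
  unfold Nf
  have : Ideal.absNorm j ≠ 0 := fun h' => h (Ideal.absNorm_eq_zero_iff.1 h')
  exact_mod_cast Nat.pos_of_ne_zero this

private theorem Nf_le_of_le {a b : Ideal (𝓞 K)} (ha : a ≠ ⊥) (hab : a ≤ b) :
    Nf K b ≤ Nf K a := by
  unfold Nf
  have h1 : Ideal.absNorm b ∣ Ideal.absNorm a := Ideal.absNorm_dvd_absNorm_of_le hab
  have h2 : Ideal.absNorm a ≠ 0 := fun h' => ha (Ideal.absNorm_eq_zero_iff.1 h')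
  exact_mod_cast Nat.le_of_dvd (Nat.pos_of_ne_zero h2) h1

theorem pf_LN (hDU : Pool.Agent.H25.HK.T_DU) : D_LN := by
  intro K _ _ e r k' he hr hk
  have h2 := two_ne K
  have h2n := norm_two K
  have he0 := coe_ne he
  have hrk : r * k' ≠ ⊥ := by
    rw [← Ideal.zero_eq_bot]
    exact mul_ne_zero hr hk
  have hR : r ⊓ k' ≠ ⊥ := fun h => hrk (le_bot_iff.1 (h ▸ Ideal.mul_le_inf))
  have hR0 := coe_ne hR
  have hMz : Mz K e ≠ 0 := mul_ne_zero h2 (inv_ne_zero he0)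
  have hRM : ((r ⊓ k' : Ideal (𝓞 K)) : FI K) * Mz K e ≠ 0 := mul_ne_zero hR0 hMz
  obtain ⟨d1, -, d3, d4, d5⟩ := hDU K _ hRM
  have hd : (0 : ℝ) < |(discr K : ℝ)| := abs_pos.2 (by exact_mod_cast NumberField.discr_ne_zero K)
  have hp : (0 : ℝ) < 2 ^ Module.finrank ℚ K := by positivity
  have hNe := Nf_pos he
  have hNR := Nf_pos hR
  have hMn : (FractionalIdeal.absNorm (Mz K e) : ℝ) = 2 ^ Module.finrank ℚ K * (Nf K e)⁻¹ := by
    unfold Mz
    rw [map_mul, map_inv₀]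
    push_cast
    rw [h2n, norm_coe]
  have hRn : (FractionalIdeal.absNorm (((r ⊓ k' : Ideal (𝓞 K)) : FI K) * Mz K e) : ℝ) =
      Nf K (r ⊓ k') * (2 ^ Module.finrank ℚ K * (Nf K e)⁻¹) := by
    rw [map_mul, Rat.cast_mul, norm_coe, hMn]
  refine ⟨hMz, d1, fun y => ?_, fun y => ?_, ?_, ?_, ?_, ?_⟩
  · unfold DD
    rw [hMn]
    field_simp
  · unfold DD dK Nz
    rw [hRn] at d5
    have h8 : (FractionalIdeal.absNorm (du K (((r ⊓ k' : Ideal (𝓞 K)) : FI K) * Mz K e)) : ℝ) =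
        (Nf K (r ⊓ k') * (2 ^ Module.finrank ℚ K * (Nf K e)⁻¹) * |(discr K : ℝ)|)⁻¹ := by
      refine eq_inv_of_mul_eq_one_left ?_
      rw [← mul_assoc]
      exact d5
    rw [h8]
    field_simp
  · exact Nf_le_of_le hR inf_le_right
  · have h3 := Nf_le_of_le hrk (Ideal.mul_le_inf (I := r) (J := k'))
    refine h3.trans (le_of_eq ?_)
    unfold Nf
    rw [map_mul]
    push_cast
    rfl
  · intro j M y hj hM
    refine ⟨mul_ne_zero (coe_ne hj) hM, ?_⟩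
    unfold DD
    rw [map_mul, Rat.cast_mul, norm_coe, div_div, mul_comm (Nf K j)]
  · intro l M δ ξ hl hM hδ hξ
    have hl0 := coe_ne hl
    have hlR : ((l * (r ⊓ k') : Ideal (𝓞 K)) : FI K) * M ≠ 0 := by
      refine mul_ne_zero (coe_ne ?_) hM
      rw [← Ideal.zero_eq_bot]
      exact mul_ne_zero hl hR
    obtain ⟨-, -, e5, -, -⟩ := hDU K _ hlR
    have e1 : ((l * e : Ideal (𝓞 K)) : FI K) * M *
        du K (((l * (r ⊓ k') : Ideal (𝓞 K)) : FI K) * M) =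
        (e : FI K) * ((r ⊓ k' : Ideal (𝓞 K)) : FI K)⁻¹ * du K 1 := by
      rw [e5, FractionalIdeal.coeIdeal_mul, FractionalIdeal.coeIdeal_mul]
      have hx : ((l : FI K) * (e : FI K) * M) *
          (((l : FI K) * ((r ⊓ k' : Ideal (𝓞 K)) : FI K) * M)⁻¹ * du K 1) =
          ((l : FI K) * (l : FI K)⁻¹) * (M * M⁻¹) *
            ((e : FI K) * ((r ⊓ k' : Ideal (𝓞 K)) : FI K)⁻¹ * du K 1) := by
        rw [mul_inv, mul_inv]
        ring
      rw [hx, mul_inv_cancel₀ hl0, mul_inv_cancel₀ hM, one_mul, one_mul]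
    have m1 : (2 * δ) * ξ ∈ (e : FI K) * ((r ⊓ k' : Ideal (𝓞 K)) : FI K)⁻¹ * du K 1 := by
      rw [← e1]
      exact FractionalIdeal.mul_mem_mul hδ hξ
    have e2 : Nz K r k' e = FractionalIdeal.spanSingleton (𝓞 K)⁰ ((2 : K)⁻¹) *
        ((e : FI K) * ((r ⊓ k' : Ideal (𝓞 K)) : FI K)⁻¹ * du K 1) := by
      unfold Nz
      rw [d3]
      unfold Mz
      rw [two_eq, mul_inv, mul_inv, inv_inv, FractionalIdeal.spanSingleton_inv]
      ring
    have e3 : δ * ξ = (2 : K)⁻¹ * ((2 * δ) * ξ) := by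
      field_simp
    rw [e2, e3]
    exact FractionalIdeal.mul_mem_mul (FractionalIdeal.mem_spanSingleton_self _ _) m1

end Pool.Agent.H54.DM.LN
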